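import Mathlib

/-!
Steinitz's theorem in dual form: a finite family of linear functionals which is positive
somewhere at each nonzero vector contains a subfamily of at most `2 d` functionals with the
same property.
-/

open Module Set

namespace Pool.Agent.Lib.MP_05b917_co

/-- In finite dimension every functional on the dual is an evaluation. -/
lemma exists_eval {V : Type*} [NormedAddCommGroup V] [NormedSpace ℝ V] [FiniteDimensional ℝ V]
    (f : StrongDual ℝ (StrongDual ℝ V)) : ∃ x : V, ∀ w : StrongDual ℝ V, f w = w x := by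
  let g : Module.Dual ℝ (Module.Dual ℝ V) :=
    (f : StrongDual ℝ V →ₗ[ℝ] ℝ).comp
      (LinearMap.toContinuousLinearMap (𝕜 := ℝ) (E := V) (F' := ℝ)).toLinearMap
  refine ⟨(Module.evalEquiv ℝ V).symm g, fun w => ?_⟩
  have h1 : Module.evalEquiv ℝ V ((Module.evalEquiv ℝ V).symm g) = g :=
    LinearEquiv.apply_symm_apply _ _
  have h2 : g (w : V →ₗ[ℝ] ℝ) = f w := by
    simp only [g, LinearMap.coe_comp, Function.comp_apply]
    congr 1
  rw [← h2]
  conv_lhs => rw [← h1]
  rfl

theorem steinitz {ι : Type*} [Finite ι] (n : ℕ) :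
    ∀ {V : Type*} [NormedAddCommGroup V] [NormedSpace ℝ V] [FiniteDimensional ℝ V]
      (_ : finrank ℝ V = n) (w : ι → StrongDual ℝ V) (_ : ∀ x, x ≠ 0 → ∃ i, 0 < w i x),
      ∃ J : Finset ι, J.card ≤ 2 * n ∧ ∀ x, x ≠ 0 → ∃ i ∈ J, 0 < w i x := by
  classical
  induction n using Nat.strong_induction_on with
  | _ n ih =>
  intro V _ _ _ hn w hw
  rcases Nat.eq_zero_or_pos n with rfl | hnpos
  · refine ⟨∅, by simp, fun x hx => absurd ?_ hx⟩
    have : Subsingleton V := Module.finrank_zero_iff.1 hn
    exact Subsingleton.elim _ _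
  have : Nontrivial V := Module.nontrivial_of_finrank_pos (R := ℝ) (by omega)
  set S : Set (StrongDual ℝ V) := {f | f ≠ 0 ∧ ∃ i, w i = f} with hS
  have hSfin : S.Finite := (Set.finite_range w).subset (by rintro f ⟨-, i, rfl⟩; exact ⟨i, rfl⟩)
  -- `0` lies in the convex hull of the nonzero functionals
  have h0 : (0 : StrongDual ℝ V) ∈ convexHull ℝ S := by
    by_contra hcon
    obtain ⟨f, u, hfu, hfS⟩ := geometric_hahn_banach_point_closed (convex_convexHull ℝ S)
      (hSfin.isCompact_convexHull ℝ).isClosed hcon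
    rw [map_zero] at hfu
    obtain ⟨x, hx⟩ := exists_eval f
    have hpos : ∀ i, w i ≠ 0 → 0 < w i x := by
      intro i hi
      rw [← hx]
      exact hfu.trans (hfS _ (subset_convexHull ℝ S ⟨hi, i, rfl⟩))
    obtain ⟨y, hy⟩ := exists_ne (0 : V)
    obtain ⟨i, hi⟩ := hw y hy
    have hi0 : w i ≠ 0 := by
      intro h; rw [h] at hi; simp at hi
    have hx0 : x ≠ 0 := by
      intro h
      have := hpos i hi0
      rw [h] at this; simp at this
    obtain ⟨j, hj⟩ := hw (-x) (neg_ne_zero.2 hx0)
    have hj0 : w j ≠ 0 := by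
      intro h; rw [h] at hj; simp at hj
    have := hpos j hj0
    rw [map_neg] at hj
    linarith
  obtain ⟨κ, hκ, z, c, hzS, hzaff, hcpos, hcsum, hcz⟩ := eq_pos_convex_span_of_mem_convexHull h0
  have hex : ∀ a : κ, ∃ i, w i = z a := fun a => (hzS ⟨a, rfl⟩).2
  have hzne : ∀ a : κ, z a ≠ 0 := fun a => (hzS ⟨a, rfl⟩).1
  choose g hg using hex
  -- the common kernel
  let z' : κ → Module.Dual ℝ V := fun a => (z a : V →ₗ[ℝ] ℝ)
  let W : Submodule ℝ (Module.Dual ℝ V) := Submodule.span ℝ (Set.range z')
  let U : Submodule ℝ V := W.dualCoannihilator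
  have hUmem : ∀ x, x ∈ U ↔ ∀ a, z a x = 0 := by
    intro x
    rw [Submodule.mem_dualCoannihilator]
    constructor
    · intro h a
      exact h _ (Submodule.subset_span ⟨a, rfl⟩)
    · intro h φ hφ
      induction hφ using Submodule.span_induction with
      | mem φ hφ => obtain ⟨a, rfl⟩ := hφ; exact h a
      | zero => simp
      | add φ ψ _ _ h1 h2 => simp [h1, h2]
      | smul r φ _ h1 => simp [h1]
  have hκ2 : 2 ≤ Fintype.card κ := by
    by_contra hlt
    have hcard : Fintype.card κ = 0 ∨ Fintype.card κ = 1 := by omega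
    rcases hcard with h | h
    · have : IsEmpty κ := Fintype.card_eq_zero_iff.1 h
      simp at hcsum
    · obtain ⟨a, ha⟩ := Fintype.card_eq_one_iff.1 h
      have h1 : ∑ i, c i • z i = c a • z a :=
        Fintype.sum_eq_single a (fun b hb => absurd (ha b) hb)
      rw [h1] at hcz
      rcases smul_eq_zero.1 hcz with h2 | h2
      · exact (hcpos a).ne' h2
      · exact hzne a h2
  have hz'aff : AffineIndependent ℝ z' := by
    have := hzaff.map' (ContinuousLinearMap.coeLM ℝ (M := V) (N₃ := ℝ) : StrongDual ℝ V →ₗ[ℝ] _).toAffineMap ?_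
    · exact this
    · intro a b hab
      exact ContinuousLinearMap.coe_injective hab
  have hdim : finrank ℝ U + (Fintype.card κ - 1) ≤ n := by
    have h1 : finrank ℝ W + finrank ℝ U = finrank ℝ V :=
      Subspace.finrank_add_finrank_dualCoannihilator_eq W
    have h2 : finrank ℝ (vectorSpan ℝ (Set.range z')) = Fintype.card κ - 1 :=
      hz'aff.finrank_vectorSpan (by omega)
    have h3 : vectorSpan ℝ (Set.range z') ≤ W := by
      rw [vectorSpan_def, Submodule.span_le]
      rintro _ ⟨_, ⟨a, rfl⟩, _, ⟨b, rfl⟩, rfl⟩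
      exact W.sub_mem (Submodule.subset_span ⟨a, rfl⟩) (Submodule.subset_span ⟨b, rfl⟩)
    have h4 := Submodule.finrank_mono h3
    omega
  -- induction on the common kernel
  obtain ⟨J₁, hJ₁card, hJ₁⟩ := ih (finrank ℝ U) (by omega) rfl
    (fun i => (w i).comp U.subtypeL) (by
      intro x hx
      exact hw x (by simpa using hx))
  refine ⟨Finset.univ.image g ∪ J₁, ?_, ?_⟩
  · calc (Finset.univ.image g ∪ J₁).card ≤ (Finset.univ.image g).card + J₁.card :=
        Finset.card_union_le _ _
      _ ≤ Fintype.card κ + 2 * finrank ℝ U :=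
        add_le_add (Finset.card_image_le.trans_eq Finset.card_univ) hJ₁card
      _ ≤ 2 * n := by omega
  · intro x hx
    by_cases hxU : x ∈ U
    · obtain ⟨i, hi, hpos⟩ := hJ₁ ⟨x, hxU⟩ (by simpa using hx)
      exact ⟨i, Finset.mem_union_right _ hi, by simpa using hpos⟩
    · rw [hUmem] at hxU
      push Not at hxU
      obtain ⟨a, ha⟩ := hxU
      have hsum : ∑ i, c i * z i x = 0 := by
        have := congrArg (fun f : StrongDual ℝ V => f x) hcz
        simpa [sum_apply] using this
      by_contra hcon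
      push Not at hcon
      have hle : ∀ b, c b * z b x ≤ 0 := by
        intro b
        have : z b x ≤ 0 := by
          rw [← hg b]
          exact hcon (g b) (Finset.mem_union_left _ (Finset.mem_image_of_mem _ (Finset.mem_univ _)))
        exact mul_nonpos_of_nonneg_of_nonpos (hcpos b).le this
      have hz0 := (Finset.sum_eq_zero_iff_of_nonpos (fun b _ => hle b)).1 hsum a (Finset.mem_univ _)
      rcases mul_eq_zero.1 hz0 with h | h
      · exact (hcpos a).ne' h
      · exact ha h

end Pool.Agent.Lib.MP_05b917_co
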