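import Mathlib
import Pool.Agent.Lib.MP_05b917_co.Steinitz

/-!
Quantitative version: if finitely many convex sets contain a ball of radius `ρ` about the origin
and have intersection inside the ball of radius `3`, then some `2 d` of them have intersection
inside a ball whose radius depends only on `d` and `ρ`.
-/

open Module Set Metric Filter Topology

namespace Pool.Agent.Lib.MP_05b917_co

section
variable {V : Type*} [NormedAddCommGroup V] [NormedSpace ℝ V] [FiniteDimensional ℝ V]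

omit [FiniteDimensional ℝ V] in
lemma pos_of_net {ρ : ℝ} (hρ : 0 < ρ) {N : Finset V}
    (hnet : ∀ x : V, ‖x‖ = 4 → ∃ u ∈ N, ‖x - u‖ ≤ ρ / 2)
    (W : N → StrongDual ℝ V) (h1 : ∀ u, ‖W u‖ ≤ 1 / ρ) (h2 : ∀ u, 1 ≤ W u u) :
    ∀ x, x ≠ 0 → ∃ u, 0 < W u x := by
  intro x hx
  have hxn : 0 < ‖x‖ := norm_pos_iff.2 hx
  obtain ⟨u, hu, hux⟩ := hnet ((4 / ‖x‖) • x) (by
    rw [norm_smul, Real.norm_of_nonneg (by positivity)]; field_simp)
  refine ⟨⟨u, hu⟩, ?_⟩
  have h3 : W ⟨u, hu⟩ ((4 / ‖x‖) • x) = W ⟨u, hu⟩ u + W ⟨u, hu⟩ ((4 / ‖x‖) • x - u) := by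
    rw [← map_add]; congr 1; abel
  have h4 : |W ⟨u, hu⟩ ((4 / ‖x‖) • x - u)| ≤ (1 / ρ) * (ρ / 2) := by
    rw [← Real.norm_eq_abs]
    calc ‖W ⟨u, hu⟩ ((4 / ‖x‖) • x - u)‖ ≤ ‖W ⟨u, hu⟩‖ * ‖(4 / ‖x‖) • x - u‖ :=
          ContinuousLinearMap.le_opNorm _ _
      _ ≤ (1 / ρ) * (ρ / 2) := mul_le_mul (h1 _) hux (norm_nonneg _) (by positivity)
  have h5 : (1 / ρ) * (ρ / 2) = 1 / 2 := by field_simp
  rw [h5] at h4
  have h6 := (abs_le.1 h4).1
  have h7 := h2 ⟨u, hu⟩
  have h8 : 0 < W ⟨u, hu⟩ ((4 / ‖x‖) • x) := by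
    rw [h3]; simp only at h7; linarith
  rw [map_smul, smul_eq_mul] at h8
  exact (mul_pos_iff_of_pos_left (by positivity)).1 h8

lemma uniform {ρ : ℝ} (hρ : 0 < ρ) {N : Finset V}
    (hnet : ∀ x : V, ‖x‖ = 4 → ∃ u ∈ N, ‖x - u‖ ≤ ρ / 2) :
    ∃ ε : ℝ, 0 < ε ∧ ∀ W : N → StrongDual ℝ V, (∀ u, ‖W u‖ ≤ 1 / ρ) → (∀ u, 1 ≤ W u u) →
      ∃ J : Finset N, J.card ≤ 2 * finrank ℝ V ∧ ∀ x, ‖x‖ = 1 → ∃ u ∈ J, ε ≤ W u x := by
  classical
  by_contra hcon
  push Not at hcon
  have hcon' : ∀ k : ℕ, ∃ W : N → StrongDual ℝ V, (∀ u, ‖W u‖ ≤ 1 / ρ) ∧ (∀ u, 1 ≤ W u u) ∧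
      ∀ J : Finset N, J.card ≤ 2 * finrank ℝ V → ∃ x, ‖x‖ = 1 ∧ ∀ u ∈ J, W u x < 1 / ((k : ℝ) + 1) :=
    fun k => hcon _ (by positivity)
  choose W hW1 hW2 hW3 using hcon'
  choose x hx1 hx2 using hW3
  let X : ℕ → Finset N → V := fun k J =>
    if h : J.card ≤ 2 * finrank ℝ V then x k J h else 0
  have hX : ∀ k J, ‖X k J‖ ≤ 1 := by
    intro k J
    simp only [X]
    split_ifs with h
    · exact (hx1 k J h).le
    · simp
  set R : ℝ := max (1 / ρ) 1 with hR
  have hR0 : 0 ≤ R := le_max_of_le_right zero_le_one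
  have : ProperSpace ((N → StrongDual ℝ V) × (Finset N → V)) := FiniteDimensional.proper ℝ _
  have hmem : ∀ k, ((W k, X k) : (N → StrongDual ℝ V) × (Finset N → V)) ∈ closedBall 0 R := by
    intro k
    rw [mem_closedBall_zero_iff, Prod.norm_def]
    refine max_le ?_ ?_
    · exact (pi_norm_le_iff_of_nonneg hR0).2 fun u => (hW1 k u).trans (le_max_left _ _)
    · exact (pi_norm_le_iff_of_nonneg hR0).2 fun J => (hX k J).trans (le_max_right _ _)
  obtain ⟨⟨W', X'⟩, -, φ, hφ, hlim⟩ := (isCompact_closedBall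
    (0 : (N → StrongDual ℝ V) × (Finset N → V)) R).tendsto_subseq hmem
  have hlimW : ∀ u, Tendsto (fun k => W (φ k) u) atTop (𝓝 (W' u)) := by
    intro u
    have h1 := (continuous_apply u).tendsto W' |>.comp
      ((continuous_fst.tendsto (W', X')).comp hlim)
    exact h1
  have hlimX : ∀ J, Tendsto (fun k => X (φ k) J) atTop (𝓝 (X' J)) := by
    intro J
    have h1 := (continuous_apply J).tendsto X' |>.comp
      ((continuous_snd.tendsto (W', X')).comp hlim)
    exact h1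
  have hW'1 : ∀ u, ‖W' u‖ ≤ 1 / ρ := fun u =>
    le_of_tendsto' (hlimW u).norm fun k => hW1 _ u
  have happ : ∀ u J, Tendsto (fun k => W (φ k) u (X (φ k) J)) atTop (𝓝 (W' u (X' J))) := by
    intro u J
    exact (isBoundedBilinearMap_apply.continuous.tendsto (W' u, X' J)).comp
      ((hlimW u).prodMk_nhds (hlimX J))
  have hW'2 : ∀ u : N, 1 ≤ W' u u := by
    intro u
    have h1 : Tendsto (fun k => W (φ k) u (u : V)) atTop (𝓝 (W' u (u : V))) := by
      exact (isBoundedBilinearMap_apply.continuous.tendsto (W' u, (u : V))).comp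
        ((hlimW u).prodMk_nhds tendsto_const_nhds)
    exact ge_of_tendsto' h1 fun k => hW2 _ u
  obtain ⟨J, hJcard, hJ⟩ := steinitz (finrank ℝ V) rfl W' (pos_of_net hρ hnet W' hW'1 hW'2)
  have hXJ : ∀ k, X k J = x k J hJcard := fun k => by simp only [X, dif_pos hJcard]
  have hX'1 : ‖X' J‖ = 1 := by
    have h1 := (hlimX J).norm
    have h2 : (fun k => ‖X (φ k) J‖) = fun _ => (1 : ℝ) := by
      funext k; rw [hXJ, hx1]
    rw [h2] at h1
    exact tendsto_nhds_unique h1 tendsto_const_nhds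
  have hX'0 : X' J ≠ 0 := by
    intro h; rw [h, norm_zero] at hX'1; exact zero_ne_one hX'1
  obtain ⟨u, hu, hpos⟩ := hJ _ hX'0
  have hle : W' u (X' J) ≤ 0 := by
    have h1 : Tendsto (fun k : ℕ => 1 / (((φ k : ℕ) : ℝ) + 1)) atTop (𝓝 0) :=
      tendsto_one_div_add_atTop_nhds_zero_nat.comp hφ.tendsto_atTop
    refine le_of_tendsto_of_tendsto' (happ u J) h1 fun k => ?_
    rw [hXJ]
    exact (hx2 (φ k) J hJcard u hu).le
  linarith

omit [FiniteDimensional ℝ V] in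
/-- A functional supporting a convex set containing a ball about `0` at an outside point. -/
lemma exists_functional {ρ : ℝ} (hρ : 0 < ρ) {K : Set V} (hK : Convex ℝ K)
    (hball : closedBall 0 ρ ⊆ K) {u : V} (hu : u ∉ K) :
    ∃ f : StrongDual ℝ V, ‖f‖ ≤ 1 / ρ ∧ f u = 1 ∧ ∀ a ∈ K, f a ≤ 1 := by
  have hint : (interior K).Nonempty := by
    refine ⟨0, ?_⟩
    have h1 : ball (0 : V) ρ ⊆ interior K :=
      interior_maximal (ball_subset_closedBall.trans hball) isOpen_ball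
    exact h1 (mem_ball_self hρ)
  obtain ⟨f, hf0, hf⟩ := geometric_hahn_banach_of_nonempty_interior_point hK
    (fun h => hu (interior_subset h)) hint
  have hfu : 0 < f u := by
    obtain ⟨v, hv⟩ : ∃ v, f v ≠ 0 := by
      by_contra hcon
      push Not at hcon
      exact hf0 (ContinuousLinearMap.ext hcon)
    have hv0 : v ≠ 0 := by
      rintro rfl; simp at hv
    have hvn : 0 < ‖v‖ := norm_pos_iff.2 hv0
    have key : ∀ s : ℝ, |s| = 1 → s * (ρ / ‖v‖) * f v ≤ f u := by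
      intro s hs
      have hmem : (s * (ρ / ‖v‖)) • v ∈ K := by
        apply hball
        rw [mem_closedBall_zero_iff, norm_smul, Real.norm_eq_abs, abs_mul, hs, one_mul,
          abs_of_nonneg (by positivity)]
        apply le_of_eq; field_simp
      have := hf _ hmem
      rwa [map_smul, smul_eq_mul] at this
    rcases lt_or_gt_of_ne hv with h | h
    · have := key (-1) (by simp)
      have h2 : 0 < -1 * (ρ / ‖v‖) * f v := by
        have : 0 < ρ / ‖v‖ := by positivity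
        nlinarith
      linarith
    · have := key 1 (by simp)
      have h2 : 0 < 1 * (ρ / ‖v‖) * f v := by positivity
      linarith
  have hle : ∀ a ∈ K, ((f u)⁻¹ • f) a ≤ 1 := by
    intro a ha
    rw [smul_apply, smul_eq_mul, inv_mul_le_iff₀ hfu, mul_one]
    exact hf a ha
  refine ⟨(f u)⁻¹ • f, ?_, ?_, hle⟩
  · refine ContinuousLinearMap.opNorm_le_bound _ (by positivity) fun x => ?_
    rcases eq_or_ne x 0 with rfl | hx
    · simp
    have hxn : 0 < ‖x‖ := norm_pos_iff.2 hx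
    have hmem : ∀ s : ℝ, |s| = 1 → (s * (ρ / ‖x‖)) • x ∈ K := by
      intro s hs
      apply hball
      rw [mem_closedBall_zero_iff, norm_smul, Real.norm_eq_abs, abs_mul, hs, one_mul,
        abs_of_nonneg (by positivity)]
      apply le_of_eq; field_simp
    have h1 := hle _ (hmem 1 (by simp))
    have h2 := hle _ (hmem (-1) (by simp))
    rw [map_smul, smul_eq_mul] at h1 h2
    set t := ((f u)⁻¹ • f) x with ht
    rw [Real.norm_eq_abs, abs_le]
    have h3 : ρ / ‖x‖ * t ≤ 1 := by linarith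
    have h4 : ρ / ‖x‖ * (-t) ≤ 1 := by linarith
    have h5 : t ≤ 1 / ρ * ‖x‖ := by
      have : t = (ρ / ‖x‖ * t) * (‖x‖ / ρ) := by field_simp
      rw [this]
      calc (ρ / ‖x‖ * t) * (‖x‖ / ρ) ≤ 1 * (‖x‖ / ρ) :=
            mul_le_mul_of_nonneg_right h3 (by positivity)
        _ = 1 / ρ * ‖x‖ := by ring
    have h6 : -t ≤ 1 / ρ * ‖x‖ := by
      have : -t = (ρ / ‖x‖ * (-t)) * (‖x‖ / ρ) := by field_simp
      rw [this]
      calc (ρ / ‖x‖ * (-t)) * (‖x‖ / ρ) ≤ 1 * (‖x‖ / ρ) :=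
            mul_le_mul_of_nonneg_right h4 (by positivity)
        _ = 1 / ρ * ‖x‖ := by ring
    exact ⟨by linarith, h5⟩
  · rw [smul_apply, smul_eq_mul, inv_mul_cancel₀ hfu.ne']

end

theorem bounded_subfamily (V : Type*) [NormedAddCommGroup V] [NormedSpace ℝ V]
    [FiniteDimensional ℝ V] {ρ : ℝ} (hρ : 0 < ρ) :
    ∃ M : ℝ, 0 < M ∧ ∀ (n : ℕ) (K : Fin n → Set V), (∀ i, Convex ℝ (K i)) →
      (∀ i, closedBall 0 ρ ⊆ K i) → (⋂ i, K i) ⊆ closedBall 0 3 →
      ∃ s : Finset (Fin n), s.card ≤ 2 * finrank ℝ V ∧ (⋂ i ∈ s, K i) ⊆ closedBall 0 M := by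
  classical
  have : ProperSpace V := FiniteDimensional.proper ℝ V
  obtain ⟨N, hN1, hN2⟩ : ∃ N : Finset V, (∀ u ∈ N, ‖u‖ = 4) ∧
      ∀ x : V, ‖x‖ = 4 → ∃ u ∈ N, ‖x - u‖ ≤ ρ / 2 := by
    have hc : IsCompact (sphere (0 : V) 4) := isCompact_sphere 0 4
    obtain ⟨t, ht, htfin, htc⟩ := hc.finite_cover_balls (half_pos hρ)
    refine ⟨htfin.toFinset, ?_, ?_⟩
    · intro u hu
      simpa using ht (by simpa using hu)
    · intro x hx
      have := htc (by simpa using hx : x ∈ sphere (0 : V) 4)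
      simp only [mem_iUnion, exists_prop] at this
      obtain ⟨u, hu, hxu⟩ := this
      exact ⟨u, by simpa using hu, by rw [← dist_eq_norm]; exact (mem_ball.1 hxu).le⟩
  obtain ⟨ε, hε, huni⟩ := uniform hρ hN2
  refine ⟨1 / ε, by positivity, ?_⟩
  intro n K hconv hball hinter
  have hex : ∀ u : N, ∃ i, (u : V) ∉ K i := by
    intro u
    by_contra hcon
    push Not at hcon
    have := hinter (mem_iInter.2 hcon)
    rw [mem_closedBall_zero_iff, hN1 u u.2] at this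
    norm_num at this
  choose i hi using hex
  choose W hW1 hW2 hW3 using fun u : N =>
    exists_functional hρ (hconv (i u)) (hball (i u)) (hi u)
  obtain ⟨J, hJcard, hJ⟩ := huni W hW1 (fun u => (hW2 u).ge)
  refine ⟨J.image i, Finset.card_image_le.trans hJcard, ?_⟩
  intro x hx
  rw [mem_closedBall_zero_iff]
  rcases eq_or_ne x 0 with rfl | hx0
  · simp; positivity
  have hxn : 0 < ‖x‖ := norm_pos_iff.2 hx0
  obtain ⟨u, hu, hue⟩ := hJ (‖x‖⁻¹ • x) (by
    rw [norm_smul, norm_inv, norm_norm, inv_mul_cancel₀ hxn.ne'])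
  rw [map_smul, smul_eq_mul] at hue
  have h1 : W u x ≤ 1 := hW3 u x (by
    simp only [mem_iInter] at hx
    exact hx (i u) (Finset.mem_image_of_mem _ hu))
  have h2 : ε * ‖x‖ ≤ W u x := by
    have := mul_le_mul_of_nonneg_right hue hxn.le
    have h3 : ‖x‖⁻¹ * W u x * ‖x‖ = W u x := by field_simp
    rwa [h3] at this
  rw [le_div_iff₀ hε]
  linarith

end Pool.Agent.Lib.MP_05b917_co
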