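import Mathlib

/-!
A partition of a family of convex sets (all containing a fixed ball) into a bounded number of
classes, according to the points of a fine grid which they contain.
-/

open Module Set Metric Filter Topology MeasureTheory
open scoped ENNReal Pointwise

namespace Pool.Agent.Lib.MP_05b917_co

section
variable {d : ℕ}

/-- A convex set containing the ball of radius `ρ` and a point at distance at least `R ≥ 2 J ρ`
from the origin has large volume inside the ball of radius `R`. -/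
lemma vol_ge_of_far {ρ R : ℝ} (hρ : 0 < ρ) {J : ℕ} (hJ : 0 < J) (hR : 2 * J * ρ ≤ R)
    {K : Set (Fin d → ℝ)} (hK : Convex ℝ K) (hball : closedBall 0 ρ ⊆ K)
    {p : Fin d → ℝ} (hp : p ∈ K) (hpR : R ≤ ‖p‖) :
    J * ENNReal.ofReal (ρ ^ d) ≤ volume (K ∩ closedBall 0 R) := by
  have hJ1 : (1 : ℝ) ≤ J := by exact_mod_cast hJ
  have hRρ : 2 * ρ ≤ R := by nlinarith
  have hR0 : 0 < R := by linarith
  have hpn : 0 < ‖p‖ := hR0.trans_le hpR
  -- rescale `p` to norm exactly `R`
  obtain ⟨q, hqK, hqn⟩ : ∃ q ∈ K, ‖q‖ = R := by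
    refine ⟨(R / ‖p‖) • p, ?_, ?_⟩
    · have h0 : (0 : Fin d → ℝ) ∈ K := hball (mem_closedBall_self hρ.le)
      have := hK h0 hp (a := 1 - R / ‖p‖) (b := R / ‖p‖)
        (by rw [sub_nonneg]; exact (div_le_one hpn).2 hpR) (by positivity) (by ring)
      simpa using this
    · rw [norm_smul, Real.norm_of_nonneg (by positivity)]; field_simp
  let c : ℕ → (Fin d → ℝ) := fun k => ((k : ℝ) / (2 * J)) • q
  have hdisj : Set.PairwiseDisjoint (↑(Finset.range J)) (fun k => ball (c k) (ρ / 2)) := by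
    intro k hk l hl hkl
    refine ball_disjoint_ball ?_
    have h1 : dist (c k) (c l) = |(k : ℝ) - l| / (2 * J) * R := by
      rw [dist_eq_norm]
      simp only [c]
      rw [← sub_smul, norm_smul, hqn, Real.norm_eq_abs, ← sub_div, abs_div,
        abs_of_pos (by positivity : (0 : ℝ) < 2 * J)]
    have h2 : 1 ≤ |(k : ℝ) - l| := by
      have h3 : (1 : ℤ) ≤ |(k : ℤ) - l| := Int.one_le_abs (sub_ne_zero.2 (by exact_mod_cast hkl))
      exact_mod_cast h3
    rw [h1]
    calc ρ / 2 + ρ / 2 = ρ := by ring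
      _ = 1 / (2 * J) * (2 * J * ρ) := by field_simp
      _ ≤ 1 / (2 * J) * R := mul_le_mul_of_nonneg_left hR (by positivity)
      _ ≤ |(k : ℝ) - l| / (2 * J) * R := by gcongr
  have hsub : (⋃ k ∈ Finset.range J, ball (c k) (ρ / 2)) ⊆ K ∩ closedBall 0 R := by
    intro x hx
    simp only [mem_iUnion, exists_prop, Finset.mem_range] at hx
    obtain ⟨k, hk, hx⟩ := hx
    set t : ℝ := (k : ℝ) / (2 * J) with ht
    have hkJ : (k : ℝ) ≤ J := by exact_mod_cast hk.le
    have ht0 : 0 ≤ t := by positivity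
    have ht1 : t ≤ 1 / 2 := by
      rw [ht, div_le_div_iff₀ (by positivity) (by norm_num)]; linarith
    have hxc : ‖x - c k‖ < ρ / 2 := by rw [← dist_eq_norm]; exact hx
    constructor
    · have h1 : (1 - t)⁻¹ • (x - c k) ∈ K := by
        apply hball
        rw [mem_closedBall_zero_iff, norm_smul, norm_inv, Real.norm_of_nonneg (by linarith)]
        rw [inv_mul_le_iff₀ (by linarith)]
        nlinarith
      have h2 := hK h1 hqK (a := 1 - t) (b := t) (by linarith) ht0 (by ring)
      rw [smul_smul, mul_inv_cancel₀ (by linarith), one_smul] at h2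
      have h3 : x - c k + t • q = x := by simp only [c]; abel
      rwa [h3] at h2
    · rw [mem_closedBall_zero_iff]
      have h1 : ‖c k‖ = t * R := by
        simp only [c]; rw [norm_smul, hqn, Real.norm_of_nonneg ht0]
      calc ‖x‖ = ‖(x - c k) + c k‖ := by congr 1; abel
        _ ≤ ‖x - c k‖ + ‖c k‖ := norm_add_le _ _
        _ ≤ ρ / 2 + t * R := by rw [h1]; linarith
        _ ≤ R := by nlinarith
  calc (J : ℝ≥0∞) * ENNReal.ofReal (ρ ^ d)
      = ∑ k ∈ Finset.range J, volume (ball (c k) (ρ / 2)) := by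
        have : ∀ k, volume (ball (c k) (ρ / 2)) = ENNReal.ofReal (ρ ^ d) := by
          intro k
          rw [Real.volume_pi_ball _ (by positivity), Fintype.card_fin]
          congr 2; ring
        simp [this]
    _ = volume (⋃ k ∈ Finset.range J, ball (c k) (ρ / 2)) :=
        (measure_biUnion_finset hdisj fun k _ => measurableSet_ball).symm
    _ ≤ _ := measure_mono hsub

/-- The grid partition. -/
lemma grid_partition {ρ R η : ℝ} (hρ : 0 < ρ) (hη : 0 < η) (hη1 : η < 1) :
    ∃ r : ℕ, ∀ (n : ℕ) (K : Fin n → Set (Fin d → ℝ)), (∀ i, Convex ℝ (K i)) →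
      (∀ i, closedBall 0 ρ ⊆ K i) →
      ∃ c : Fin n → Fin r, ∀ i j, c i = c j → (1 - η) • (K i ∩ closedBall 0 R) ⊆ K j := by
  classical
  set h : ℝ := η * ρ with hh
  have hh0 : 0 < h := by positivity
  obtain ⟨m, hm⟩ : ∃ m : ℕ, R + h ≤ h * m := by
    obtain ⟨m, hm⟩ := exists_nat_ge ((R + h) / h)
    exact ⟨m, by rw [div_le_iff₀ hh0] at hm; linarith⟩
  let G : Finset (Fin d → ℤ) := Fintype.piFinset fun _ => Finset.Icc (-(m : ℤ)) m
  refine ⟨Fintype.card (Set G), fun n K hconv hball => ?_⟩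
  let A : Fin n → Set G := fun i => {z | (fun k => h * ((z : Fin d → ℤ) k : ℝ)) ∈ K i}
  refine ⟨fun i => Fintype.equivFin _ (A i), fun i j hij => ?_⟩
  have hA : A i = A j := (Fintype.equivFin _).injective hij
  rintro _ ⟨q, ⟨hqK, hqR⟩, rfl⟩
  rw [mem_closedBall_zero_iff] at hqR
  have hqk : ∀ k, |q k| ≤ R := fun k => (norm_le_pi_norm q k).trans hqR
  set p : Fin d → ℝ := (1 - η) • q with hp
  have hpk : ∀ k, |p k| ≤ R := by
    intro k
    simp only [hp, Pi.smul_apply, smul_eq_mul, abs_mul, abs_of_nonneg (by linarith : (0 : ℝ) ≤ 1 - η)]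
    have := hqk k
    have h0 := abs_nonneg (q k)
    nlinarith
  -- corners of the grid cube containing `p`
  let T : Fin d → Set ℝ := fun k => {h * (⌊p k / h⌋ : ℝ), h * ((⌊p k / h⌋ : ℝ) + 1)}
  have hfl : ∀ k, h * (⌊p k / h⌋ : ℝ) ≤ p k ∧ p k ≤ h * ((⌊p k / h⌋ : ℝ) + 1) := by
    intro k
    have h1 := Int.floor_le (p k / h)
    have h2 := (Int.lt_floor_add_one (p k / h)).le
    constructor
    · calc h * (⌊p k / h⌋ : ℝ) ≤ h * (p k / h) := mul_le_mul_of_nonneg_left h1 hh0.le
        _ = p k := by field_simp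
    · calc p k = h * (p k / h) := by field_simp
        _ ≤ _ := mul_le_mul_of_nonneg_left h2 hh0.le
  have hpT : p ∈ convexHull ℝ (Set.pi univ T) := by
    rw [convexHull_pi]
    intro k _
    simp only [T]
    rw [convexHull_pair, segment_eq_Icc ((hfl k).1.trans (hfl k).2)]
    exact hfl k
  have hTK : Set.pi univ T ⊆ K j := by
    intro v hv
    -- integer coordinates of `v`
    have hz : ∀ k, ∃ z : ℤ, v k = h * z ∧ |v k - p k| ≤ h := by
      intro k
      have hvk := hv k (mem_univ k)
      simp only [T, mem_insert_iff, mem_singleton_iff] at hvk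
      have hf := hfl k
      rcases hvk with hvk | hvk
      · exact ⟨⌊p k / h⌋, hvk, by rw [hvk, abs_le]; constructor <;> linarith⟩
      · exact ⟨⌊p k / h⌋ + 1, by rw [hvk]; push_cast; ring,
          by rw [hvk, abs_le]; constructor <;> linarith⟩
    choose z hz1 hz2 using hz
    have hvKi : v ∈ K i := by
      have h1 : η⁻¹ • (v - p) ∈ K i := by
        apply hball i
        rw [mem_closedBall_zero_iff, norm_smul, norm_inv, Real.norm_of_nonneg hη.le,
          inv_mul_le_iff₀ hη]
        refine (pi_norm_le_iff_of_nonneg (by positivity)).2 fun k => ?_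
        simpa using hz2 k
      have h2 := (hconv i) hqK h1 (a := 1 - η) (b := η) (by linarith) hη.le (by ring)
      rw [smul_smul, mul_inv_cancel₀ hη.ne', one_smul] at h2
      have h3 : (1 - η) • q + (v - p) = v := by rw [← hp]; abel
      rwa [h3] at h2
    have hzG : z ∈ G := by
      rw [Fintype.mem_piFinset]
      intro k
      rw [Finset.mem_Icc]
      have h1 : |v k| ≤ h * m := by
        calc |v k| = |(v k - p k) + p k| := by congr 1; ring
          _ ≤ |v k - p k| + |p k| := abs_add_le _ _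
          _ ≤ h + R := add_le_add (hz2 k) (hpk k)
          _ ≤ h * m := by linarith
      rw [hz1 k, abs_mul, abs_of_pos hh0] at h1
      have h2 : |(z k : ℝ)| ≤ m := le_of_mul_le_mul_left h1 hh0
      rw [abs_le] at h2
      constructor
      · have := h2.1; exact_mod_cast this
      · have := h2.2; exact_mod_cast this
    have hv' : v = fun k => h * (z k : ℝ) := funext hz1
    have hzA : (⟨z, hzG⟩ : G) ∈ A i := by
      simp only [A, Set.mem_ofPred_eq]
      rw [← hv']; exact hvKi
    rw [hA] at hzA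
    simp only [A, Set.mem_ofPred_eq] at hzA
    rw [hv']; exact hzA
  exact (convexHull_min hTK (hconv j)) hpT

end

/-- Core partition lemma: convex sets containing a fixed ball and of volume at least `D`, where
`D` is bounded, can be split into boundedly many classes, each with intersection of volume at
least `(1 - δ) D`. -/
theorem core {d : ℕ} (hd : 1 ≤ d) {ρ M δ : ℝ} (hρ : 0 < ρ) (hδ : 0 < δ) (hδ1 : δ < 1) :
    ∃ r : ℕ, ∀ (n : ℕ) (K : Fin n → Set (Fin d → ℝ)) (D : ℝ≥0∞), (∀ i, Convex ℝ (K i)) →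
      (∀ i, closedBall 0 ρ ⊆ K i) → D ≤ ENNReal.ofReal M → (∀ i, D ≤ volume (K i)) →
      ∃ c : Fin n → Fin r, ∀ j, ENNReal.ofReal (1 - δ) * D ≤ volume (⋂ i ∈ {i | c i = j}, K i) := by
  obtain ⟨J, hJ0, hJ⟩ : ∃ J : ℕ, 0 < J ∧ M ≤ J * ρ ^ d := by
    obtain ⟨J, hJ⟩ := exists_nat_ge (M / ρ ^ d)
    refine ⟨J + 1, by omega, ?_⟩
    rw [div_le_iff₀ (by positivity)] at hJ
    push_cast
    nlinarith [pow_pos hρ d]
  have hd0 : (0 : ℝ) < d := by exact_mod_cast hd
  have hd1 : (1 : ℝ) ≤ d := by exact_mod_cast hd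
  set η : ℝ := δ / d with hη
  have hη0 : 0 < η := by positivity
  have hη1 : η < 1 := (div_le_self hδ.le hd1).trans_lt hδ1
  obtain ⟨r, hr⟩ := grid_partition (d := d) (R := 2 * J * ρ) hρ hη0 hη1
  refine ⟨r, fun n K D hconv hball hDM hDK => ?_⟩
  obtain ⟨c, hc⟩ := hr n K hconv hball
  refine ⟨c, fun j => ?_⟩
  have htrunc : ∀ i, D ≤ volume (K i ∩ closedBall 0 (2 * J * ρ)) := by
    intro i
    by_cases hsub : K i ⊆ closedBall 0 (2 * J * ρ)
    · rw [inter_eq_left.2 hsub]; exact hDK i
    · rw [not_subset] at hsub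
      obtain ⟨p, hpK, hp⟩ := hsub
      rw [mem_closedBall_zero_iff, not_le] at hp
      refine le_trans ?_ (vol_ge_of_far hρ hJ0 le_rfl (hconv i) (hball i) hpK hp.le)
      refine hDM.trans ?_
      rw [← ENNReal.ofReal_natCast, ← ENNReal.ofReal_mul (by positivity)]
      exact ENNReal.ofReal_le_ofReal hJ
  by_cases hex : ∃ i, c i = j
  · obtain ⟨i, rfl⟩ := hex
    have hsub : (1 - η) • (K i ∩ closedBall 0 (2 * J * ρ)) ⊆ ⋂ l ∈ {l | c l = c i}, K l := by
      intro x hx
      simp only [Set.mem_ofPred_eq, mem_iInter]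
      intro l hl
      exact hc i l hl.symm hx
    refine le_trans ?_ (measure_mono hsub)
    rw [Measure.addHaar_smul, finrank_fin_fun, abs_of_nonneg (by
      have : (0 : ℝ) ≤ 1 - η := by linarith
      positivity)]
    refine mul_le_mul' (ENNReal.ofReal_le_ofReal ?_) (htrunc i)
    have h1 := one_add_mul_le_pow (a := -η) (by linarith) d
    have h2 : (d : ℝ) * -η = -δ := by rw [hη]; field_simp
    rw [h2] at h1
    calc 1 - δ = 1 + -δ := by ring
      _ ≤ (1 + -η) ^ d := h1
      _ = (1 - η) ^ d := by ring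
  · push Not at hex
    have : (⋂ l ∈ {l | c l = j}, K l) = univ := by
      ext x
      simp only [Set.mem_ofPred_eq, mem_iInter, mem_univ, iff_true]
      intro l hl
      exact absurd hl (hex l)
    rw [this]
    have : Nonempty (Fin d) := ⟨⟨0, hd⟩⟩
    rw [measure_univ_of_isAddLeftInvariant]
    exact le_top

end Pool.Agent.Lib.MP_05b917_co
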