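import Mathlib

/-!
Affine normalisation of a convex set of finite volume with nonempty interior, by a (nearly)
largest simplex with one vertex at a fixed interior point.
-/

open Module Set Metric Filter Topology MeasureTheory Matrix
open scoped ENNReal Pointwise

namespace Pool.Agent.Lib.MP_05b917_co

/-- The standard corner simplex. -/
def corner (d : ℕ) : Set (Fin d → ℝ) := {x | (∀ i, 0 ≤ x i) ∧ ∑ i, x i ≤ 1}

lemma mem_corner {d : ℕ} (hd : 1 ≤ d) {y : Fin d → ℝ}
    (hy : ‖y‖ ≤ 1 / ((d : ℝ) * (d + 1))) :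
    (fun i => y i + 1 / ((d : ℝ) + 1)) ∈ corner d := by
  have hd0 : (0 : ℝ) < d := by exact_mod_cast hd
  have hd1 : (1 : ℝ) ≤ d := by exact_mod_cast hd
  have hyi : ∀ i, |y i| ≤ 1 / ((d : ℝ) * (d + 1)) := fun i => (norm_le_pi_norm y i).trans hy
  constructor
  · intro i
    have h1 := (abs_le.1 (hyi i)).1
    have h2 : 1 / ((d : ℝ) * (d + 1)) ≤ 1 / ((d : ℝ) + 1) := by
      apply one_div_le_one_div_of_le (by positivity)
      nlinarith
    simp only
    linarith
  · calc ∑ i, (y i + 1 / ((d : ℝ) + 1)) ≤ ∑ _i : Fin d, (1 / ((d : ℝ) * (d + 1)) + 1 / ((d : ℝ) + 1)) :=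
          Finset.sum_le_sum fun i _ => by
            have := (abs_le.1 (hyi i)).2
            linarith
      _ = 1 := by
          rw [Finset.sum_const, Finset.card_univ, Fintype.card_fin, nsmul_eq_mul]
          field_simp
          ring

lemma volume_corner_pos {d : ℕ} (hd : 1 ≤ d) : 0 < volume (corner d) := by
  have hd0 : (0 : ℝ) < d := by exact_mod_cast hd
  set g : Fin d → ℝ := fun _ => 1 / ((d : ℝ) + 1)
  have hsub : ball g (1 / ((d : ℝ) * (d + 1))) ⊆ corner d := by
    intro x hx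
    rw [mem_ball_iff_norm] at hx
    have := mem_corner hd hx.le
    have h2 : (fun i => (x - g) i + 1 / ((d : ℝ) + 1)) = x := by
      funext i; simp [g]
    rwa [h2] at this
  exact (measure_ball_pos volume g (by positivity)).trans_le (measure_mono hsub)

lemma volume_corner_lt_top {d : ℕ} : volume (corner d) < ⊤ := by
  have hsub : corner d ⊆ closedBall 0 1 := by
    intro x hx
    rw [mem_closedBall_zero_iff]
    refine (pi_norm_le_iff_of_nonneg zero_le_one).2 fun i => ?_
    rw [Real.norm_of_nonneg (hx.1 i)]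
    exact (Finset.single_le_sum (f := fun i => x i) (fun j _ => hx.1 j) (Finset.mem_univ i)).trans hx.2
  exact (measure_mono hsub).trans_lt measure_closedBall_lt_top

/-- Matrix with columns `p j - c`. -/
def colMat {d : ℕ} (c : Fin d → ℝ) (p : Fin d → Fin d → ℝ) : Matrix (Fin d) (Fin d) ℝ :=
  Matrix.of fun i j => p j i - c i

lemma colMat_mulVec {d : ℕ} (c : Fin d → ℝ) (p : Fin d → Fin d → ℝ) (x : Fin d → ℝ) :
    c + (colMat c p) *ᵥ x = (1 - ∑ j, x j) • c + ∑ j, x j • p j := by
  funext i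
  simp only [colMat, Pi.add_apply, mulVec, dotProduct, Matrix.of_apply, Pi.smul_apply, smul_eq_mul,
    Finset.sum_apply]
  rw [sub_mul, Finset.sum_mul, one_mul]
  have : ∑ j, (p j i - c i) * x j = ∑ j, x j * p j i - ∑ j, x j * c i := by
    rw [← Finset.sum_sub_distrib]
    exact Finset.sum_congr rfl fun j _ => by ring
  rw [this]; ring

lemma mem_of_corner {d : ℕ} {C : Set (Fin d → ℝ)} (hC : Convex ℝ C) {c : Fin d → ℝ} (hc : c ∈ C)
    {p : Fin d → Fin d → ℝ} (hp : ∀ j, p j ∈ C) {x : Fin d → ℝ} (hx : x ∈ corner d) :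
    c + (colMat c p) *ᵥ x ∈ C := by
  rw [colMat_mulVec]
  have := hC.sum_mem (t := (Finset.univ : Finset (Option (Fin d))))
    (w := fun o => o.elim (1 - ∑ j, x j) x) (z := fun o => o.elim c p) ?_ ?_ ?_
  · simpa [Fintype.sum_option] using this
  · rintro (_ | j) _
    · simpa using hx.2
    · exact hx.1 j
  · simp [Fintype.sum_option]
  · rintro (_ | j) _
    · exact hc
    · exact hp j

lemma det_le {d : ℕ} (hd : 1 ≤ d) {C : Set (Fin d → ℝ)} (hC : Convex ℝ C) {c : Fin d → ℝ}
    (hc : c ∈ C) (hfin : volume C < ⊤) {p : Fin d → Fin d → ℝ} (hp : ∀ j, p j ∈ C) :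
    |(colMat c p).det| ≤ (volume C / volume (corner d)).toReal := by
  have h1 : (fun x => c + x) '' ((toLin' (colMat c p)) '' (corner d)) ⊆ C := by
    rintro _ ⟨_, ⟨x, hx, rfl⟩, rfl⟩
    exact mem_of_corner hC hc hp hx
  have h2 := measure_mono (μ := volume) h1
  rw [image_add_left, measure_preimage_add, Measure.addHaar_image_linearMap,
    LinearMap.det_toLin'] at h2
  have h3 : ENNReal.ofReal |(colMat c p).det| ≤ volume C / volume (corner d) := by
    rw [ENNReal.le_div_iff_mul_le (Or.inl (volume_corner_pos hd).ne')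
      (Or.inl (volume_corner_lt_top).ne)]
    exact h2
  have h4 : volume C / volume (corner d) ≠ ⊤ :=
    ENNReal.div_ne_top hfin.ne (volume_corner_pos hd).ne'
  rw [← ENNReal.toReal_ofReal (abs_nonneg (colMat c p).det)]
  exact ENNReal.toReal_mono h4 h3

lemma colMat_update {d : ℕ} (c : Fin d → ℝ) (p : Fin d → Fin d → ℝ) (i : Fin d)
    (x : Fin d → ℝ) :
    (colMat c p).updateCol i (x - c) = colMat c (Function.update p i x) := by
  ext k j
  simp only [colMat, Matrix.updateCol_apply, Matrix.of_apply, Function.update_apply]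
  split_ifs with h
  · rfl
  · rfl

theorem normalise {d : ℕ} (hd : 1 ≤ d) {C : Set (Fin d → ℝ)} (hC : Convex ℝ C)
    (hint : (interior C).Nonempty) (hfin : volume C < ⊤) :
    ∃ (A : Matrix (Fin d) (Fin d) ℝ) (c' : Fin d → ℝ), A.det ≠ 0 ∧
      (∀ y, ‖y‖ ≤ 1 / ((d : ℝ) * (d + 1)) → c' + A *ᵥ y ∈ C) ∧
      ∀ y, c' + A *ᵥ y ∈ C → ‖y‖ ≤ 3 := by
  classical
  obtain ⟨c, hc⟩ := hint
  have hcC : c ∈ C := interior_subset hc
  set S : Set ℝ := {t | ∃ p : Fin d → Fin d → ℝ, (∀ j, p j ∈ C) ∧ |(colMat c p).det| = t} with hS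
  have hbdd : BddAbove S := ⟨(volume C / volume (corner d)).toReal, by
    rintro _ ⟨p, hp, rfl⟩; exact det_le hd hC hcC hfin hp⟩
  -- some nonzero determinant
  obtain ⟨p₀, hp₀, hdet₀⟩ : ∃ p : Fin d → Fin d → ℝ, (∀ j, p j ∈ C) ∧ 0 < |(colMat c p).det| := by
    obtain ⟨ε, hε, hball⟩ := Metric.isOpen_iff.1 isOpen_interior c hc
    refine ⟨fun j => c + (ε / 2) • Pi.single j 1, fun j => interior_subset (hball ?_), ?_⟩
    · rw [mem_ball_iff_norm]
      have : c + (ε / 2) • (Pi.single j 1 : Fin d → ℝ) - c = (ε / 2) • Pi.single j 1 := by abel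
      rw [this, norm_smul, Real.norm_of_nonneg (by positivity), Pi.norm_single]
      simp only [norm_one, mul_one]
      linarith
    · have : colMat c (fun j => c + (ε / 2) • (Pi.single j 1 : Fin d → ℝ)) =
          (ε / 2) • (1 : Matrix (Fin d) (Fin d) ℝ) := by
        ext i j
        simp only [colMat, Matrix.of_apply, Pi.add_apply, Pi.smul_apply, smul_eq_mul,
          Matrix.smul_apply, Matrix.one_apply, Pi.single_apply]
        ring
      rw [this, Matrix.det_smul, Matrix.det_one, mul_one]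
      positivity
  have hS0 : 0 < sSup S := hdet₀.trans_le (le_csSup hbdd ⟨p₀, hp₀, rfl⟩)
  have hne : S.Nonempty := ⟨_, p₀, hp₀, rfl⟩
  obtain ⟨_, ⟨p, hp, rfl⟩, hlt⟩ := exists_lt_of_lt_csSup hne (half_lt_self hS0)
  set A := colMat c p with hA
  have hdetpos : 0 < |A.det| := (half_pos hS0).trans hlt
  have hdet0 : A.det ≠ 0 := abs_pos.1 hdetpos
  set g : Fin d → ℝ := fun _ => 1 / ((d : ℝ) + 1) with hg
  have hshift : ∀ y : Fin d → ℝ, (c + A *ᵥ g) + A *ᵥ y = c + A *ᵥ (fun i => y i + 1 / ((d : ℝ) + 1)) := by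
    intro y
    have : (fun i => y i + 1 / ((d : ℝ) + 1)) = g + y := by funext i; simp [hg, add_comm]
    rw [this, Matrix.mulVec_add, add_assoc]
  refine ⟨A, c + A *ᵥ g, hdet0, ?_, ?_⟩
  · intro y hy
    rw [hshift]
    exact mem_of_corner hC hcC hp (mem_corner hd hy)
  · intro y hy
    rw [hshift] at hy
    set μ : Fin d → ℝ := fun i => y i + 1 / ((d : ℝ) + 1) with hμ
    have hμi : ∀ i, |μ i| ≤ 2 := by
      intro i
      have h1 : A.cramer (A *ᵥ μ) = A.det • μ := by
        rw [Matrix.cramer_eq_adjugate_mulVec, Matrix.mulVec_mulVec, Matrix.adjugate_mul,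
          Matrix.smul_mulVec, Matrix.one_mulVec]
      have h2 : A.cramer (A *ᵥ μ) i = (A.updateCol i (A *ᵥ μ)).det := Matrix.cramer_apply _ _ _
      have h3 : A *ᵥ μ = (c + A *ᵥ μ) - c := by abel
      rw [h1, h3, hA, colMat_update, ← hA] at h2
      have h4 : |(colMat c (Function.update p i (c + A *ᵥ μ))).det| ≤ sSup S := by
        refine le_csSup hbdd ⟨_, ?_, rfl⟩
        intro j
        by_cases hj : j = i
        · subst hj; rw [Function.update_self]; exact hy
        · rw [Function.update_of_ne hj]; exact hp j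
      have h5 : |A.det| * |μ i| ≤ |A.det| * 2 := by
        rw [← abs_mul]
        have h6 : A.det * μ i = (A.det • μ) i := rfl
        rw [h6, h2]
        linarith
      exact le_of_mul_le_mul_left h5 hdetpos
    refine (pi_norm_le_iff_of_nonneg (by norm_num)).2 fun i => ?_
    have h1 : y i = μ i - 1 / ((d : ℝ) + 1) := by simp [hμ]
    have h2 : 0 < 1 / ((d : ℝ) + 1) := by positivity
    have h3 : 1 / ((d : ℝ) + 1) ≤ 1 := by
      rw [div_le_one (by positivity)]
      have : (0 : ℝ) ≤ d := by positivity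
      linarith
    have h4 := abs_le.1 (hμi i)
    rw [Real.norm_eq_abs, h1, abs_le]
    constructor <;> linarith [h4.1, h4.2]

end Pool.Agent.Lib.MP_05b917_co
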