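import Mathlib
import Pool.Agent.Lib.MP_05b917_co.Bounded
import Pool.Agent.Lib.MP_05b917_co.Grid
import Pool.Agent.Lib.MP_05b917_co.Normalise

/-!
The partition theorem in coordinates `Fin d → ℝ`.
-/

open Module Set Metric Filter Topology MeasureTheory Matrix
open scoped ENNReal Pointwise

namespace Pool.Agent.Lib.MP_05b917_co

/-- A convex set of positive volume has nonempty interior. -/
lemma interior_nonempty_of_volume_pos {d : ℕ} {C : Set (Fin d → ℝ)} (hC : Convex ℝ C)
    (hpos : 0 < volume C) : (interior C).Nonempty := by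
  by_contra hcon
  rw [hC.interior_nonempty_iff_affineSpan_eq_top] at hcon
  have h1 := Measure.addHaar_affineSubspace volume (affineSpan ℝ C) hcon
  have h2 : volume C ≤ 0 := (measure_mono (subset_affineSpan ℝ C)).trans h1.le
  exact absurd h2 (not_le.2 hpos)

/-- By Helly's theorem the whole intersection has nonempty interior. -/
lemma interior_iInter_nonempty {d n : ℕ} (hd : 1 ≤ d) (K : Fin n → Set (Fin d → ℝ))
    (hconv : ∀ i, Convex ℝ (K i))
    (hvol : ∀ s : Finset (Fin n), s.card ≤ 2 * d → 1 ≤ volume (⋂ i ∈ s, K i)) :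
    (interior (⋂ i, K i)).Nonempty := by
  have h1 : (⋂ i ∈ (Finset.univ : Finset (Fin n)), interior (K i)).Nonempty := by
    apply Convex.helly_theorem' (𝕜 := ℝ)
    · intro i _; exact (hconv i).interior
    · intro I _ hI
      rw [finrank_fin_fun] at hI
      have h2 := hvol I (by omega)
      have h3 : (interior (⋂ i ∈ I, K i)).Nonempty :=
        interior_nonempty_of_volume_pos (convex_iInter₂ fun i _ => hconv i)
          (lt_of_lt_of_le zero_lt_one h2)
      refine h3.mono ?_
      intro x hx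
      simp only [mem_iInter]
      intro i hi
      exact interior_mono (biInter_subset_of_mem hi) hx
  obtain ⟨x, hx⟩ := h1
  refine ⟨x, ?_⟩
  simp only [Finset.mem_univ, iInter_true, mem_iInter] at hx
  rw [interior_iInter_of_finite]
  exact mem_iInter.2 hx

theorem main {d : ℕ} (hd : 1 ≤ d) {δ : ℝ} (hδ : 0 < δ) (hδ1 : δ < 1) :
    ∃ r : ℕ, ∀ (n : ℕ) (K : Fin n → Set (Fin d → ℝ)), (∀ i, Convex ℝ (K i)) →
      (∀ s : Finset (Fin n), s.card ≤ 2 * d → 1 ≤ volume (⋂ i ∈ s, K i)) →
      ∃ c : Fin n → Fin r, ∀ j, ENNReal.ofReal (1 - δ) ≤ volume (⋂ i ∈ {i | c i = j}, K i) := by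
  have hd0 : (0 : ℝ) < d := by exact_mod_cast hd
  set ρ : ℝ := 1 / ((d : ℝ) * (d + 1)) with hρdef
  have hρ : 0 < ρ := by positivity
  obtain ⟨M, hM0, hM⟩ := bounded_subfamily (Fin d → ℝ) hρ
  obtain ⟨r, hr⟩ := core hd (M := (2 * M) ^ d) hρ hδ hδ1
  have huniv : volume (univ : Set (Fin d → ℝ)) = ⊤ := by
    have : Nonempty (Fin d) := ⟨⟨0, hd⟩⟩
    exact measure_univ_of_isAddLeftInvariant _
  refine ⟨r + 1, fun n K hconv hvol => ?_⟩
  have hδle : ENNReal.ofReal (1 - δ) ≤ 1 := by
    rw [← ENNReal.ofReal_one]; exact ENNReal.ofReal_le_ofReal (by linarith)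
  by_cases hbig : 1 ≤ volume (⋂ i, K i)
  · refine ⟨fun _ => 0, fun j => ?_⟩
    refine hδle.trans (hbig.trans (measure_mono ?_))
    intro x hx
    simp only [mem_iInter] at hx ⊢
    intro i _; exact hx i
  · rw [not_le] at hbig
    have hint := interior_iInter_nonempty hd K hconv hvol
    obtain ⟨A, c', hA, hA1, hA2⟩ := normalise hd (convex_iInter hconv) hint
      (hbig.trans ENNReal.one_lt_top)
    -- pull back
    set φ : (Fin d → ℝ) → (Fin d → ℝ) := fun y => c' + A *ᵥ y with hφ
    set κ : ℝ≥0∞ := ENNReal.ofReal |(A.det)⁻¹| with hκ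
    have hκ0 : κ ≠ 0 := by
      rw [hκ, Ne, ENNReal.ofReal_eq_zero, not_le]
      exact abs_pos.2 (inv_ne_zero hA)
    have hκt : κ ≠ ⊤ := ENNReal.ofReal_ne_top
    have hscale : ∀ S : Set (Fin d → ℝ), volume (φ ⁻¹' S) = κ * volume S := by
      intro S
      have h1 : φ ⁻¹' S = (toLin' A) ⁻¹' ((fun x => c' + x) ⁻¹' S) := rfl
      rw [h1, Measure.addHaar_preimage_linearMap volume (by rwa [LinearMap.det_toLin']),
        measure_preimage_add, LinearMap.det_toLin']
    set K' : Fin n → Set (Fin d → ℝ) := fun i => φ ⁻¹' (K i) with hK'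
    have hconv' : ∀ i, Convex ℝ (K' i) := by
      intro i x hx y hy a b ha hb hab
      simp only [K', mem_preimage, φ] at hx hy ⊢
      have h1 : c' + A *ᵥ (a • x + b • y) = a • (c' + A *ᵥ x) + b • (c' + A *ᵥ y) := by
        rw [Matrix.mulVec_add, Matrix.mulVec_smul, Matrix.mulVec_smul, smul_add, smul_add]
        have h2 : c' = a • c' + b • c' := by rw [← add_smul, hab, one_smul]
        conv_lhs => rw [h2]
        abel
      rw [h1]
      exact hconv i hx hy ha hb hab
    have hball' : ∀ i, closedBall 0 ρ ⊆ K' i := by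
      intro i y hy
      rw [mem_closedBall_zero_iff] at hy
      exact mem_iInter.1 (hA1 y hy) i
    have hinter' : (⋂ i, K' i) ⊆ closedBall 0 3 := by
      intro y hy
      rw [mem_closedBall_zero_iff]
      apply hA2
      rw [mem_iInter] at hy ⊢
      exact hy
    obtain ⟨s, hs, hsM⟩ := hM n K' hconv' hball' hinter'
    rw [finrank_fin_fun] at hs
    have hpre : ∀ (p : Fin n → Prop), (⋂ i, ⋂ (_ : p i), K' i) = φ ⁻¹' (⋂ i, ⋂ (_ : p i), K i) := by
      intro p; simp only [K', preimage_iInter]
    have hκM : κ ≤ ENNReal.ofReal ((2 * M) ^ d) := by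
      have h1 := measure_mono (μ := volume) hsM
      rw [hpre, hscale, Real.volume_pi_closedBall _ hM0.le, Fintype.card_fin] at h1
      refine le_trans ?_ h1
      calc κ = κ * 1 := (mul_one κ).symm
        _ ≤ _ := mul_le_mul_right (hvol s hs) κ
    have hκK : ∀ i, κ ≤ volume (K' i) := by
      intro i
      have h1 := hvol {i} (by rw [Finset.card_singleton]; omega)
      simp only [Finset.mem_singleton, iInter_iInter_eq_left] at h1
      rw [hK']
      simp only
      rw [hscale]
      calc κ = κ * 1 := (mul_one κ).symm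
        _ ≤ _ := mul_le_mul_right h1 κ
    obtain ⟨c, hc⟩ := hr n K' κ hconv' hball' hκM hκK
    refine ⟨fun i => (c i).castSucc, fun j => ?_⟩
    by_cases hj : ∃ j' : Fin r, j'.castSucc = j
    · obtain ⟨j', rfl⟩ := hj
      have h1 := hc j'
      simp only [Set.mem_ofPred_eq] at h1
      rw [hpre, hscale, mul_comm] at h1
      have h2 : ENNReal.ofReal (1 - δ) ≤ volume (⋂ i, ⋂ (_ : c i = j'), K i) :=
        (ENNReal.mul_le_mul_iff_right hκ0 hκt).1 h1
      simpa only [Set.mem_ofPred_eq, Fin.castSucc_inj] using h2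
    · push Not at hj
      have : (⋂ i ∈ {i | (c i).castSucc = j}, K i) = univ := by
        ext x
        simp only [Set.mem_ofPred_eq, mem_iInter, mem_univ, iff_true]
        intro l hl
        exact absurd hl (hj (c l))
      rw [this, huniv]
      exact le_top

end Pool.Agent.Lib.MP_05b917_co
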